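import Pool.Agent.Helper95_PSC.Defs

set_option autoImplicit false

/-!
Statements of the modules of the proof of the Pisot substitution conjecture.
-/

namespace Pool.Agent.PSC

open Pool.Agent.Helper40_Pisot MeasureTheory

/-- Lattice geometry. -/
def LatAStmt : Prop :=
  ∀ (m : ℕ) (σ : Fin (m + 1) → List (Fin (m + 1))) (M : Matrix (Fin (m + 1)) (Fin (m + 1)) ℤ)
    (r : ℝ) (α l : Fin (m + 1) → ℝ) (a0 : Fin (m + 1)) (x0 : ℤ → Fin (m + 1)),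
    Dat σ M r α l a0 x0 →
    Function.Injective (ht l : Lat m → ℝ) ∧
    (∃ K : ℝ, 0 < K ∧ ∀ (v : Lat m) (i : Fin (m + 1)),
      |(v i : ℝ)| ≤ K * (|ht l v| + ∑ j, |pr α v j|)) ∧
    Dense (Set.range (pr α : Lat m → E m))

/-- The contractions. -/
def LatBStmt : Prop :=
  ∀ (m : ℕ) (σ : Fin (m + 1) → List (Fin (m + 1))) (M : Matrix (Fin (m + 1)) (Fin (m + 1)) ℤ)
    (r : ℝ) (α l : Fin (m + 1) → ℝ) (a0 : Fin (m + 1)) (x0 : ℤ → Fin (m + 1)),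
    Dat σ M r α l a0 x0 →
    (∀ (n : ℕ) (v : Lat m), Bn M α n (pr α v) = pr α ((M ^ n).mulVec v)) ∧
    (∀ (n : ℕ) (v : Lat m), ht l ((M ^ n).mulVec v) = r ^ n * ht l v) ∧
    (∃ C ρ : ℝ, 0 ≤ C ∧ 0 < ρ ∧ ρ < 1 ∧ ∀ (n : ℕ) (y : E m), ‖Bn M α n y‖ ≤ C * ρ ^ n * ‖y‖) ∧
    (∀ n : ℕ, Function.Bijective (Bn M α n)) ∧
    (∀ (n k : ℕ) (y : E m), Bn M α (n + k) y = Bn M α n (Bn M α k y)) ∧
    (∀ (n : ℕ) (S : Set (E m)),
      volume (Bn M α n '' S) = ENNReal.ofReal ((r ^ n)⁻¹) * volume S)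

/-- Basic facts on tiles. -/
def TileStmt : Prop :=
  ∀ (m : ℕ) (σ : Fin (m + 1) → List (Fin (m + 1))) (M : Matrix (Fin (m + 1)) (Fin (m + 1)) ℤ)
    (r : ℝ) (α l : Fin (m + 1) → ℝ) (a0 : Fin (m + 1)) (x0 : ℤ → Fin (m + 1)),
    Dat σ M r α l a0 x0 →
    (∀ F : Face m, IsCompact (tile σ α x0 F)) ∧
    (∀ (v : Lat m) (F : Face m),
      tile σ α x0 (tr v F) = (fun y => pr α v + y) '' tile σ α x0 F) ∧
    (∃ K : ℝ, ∀ (F : Face m), ∀ y ∈ tile σ α x0 F, ∀ i, |y i - pr α F.1 i| ≤ K) ∧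
    (∀ F : Face m, 0 < volume (tile σ α x0 F)) ∧
    (∀ i, ∑ j, (M i j : ℝ) * (volume (tile σ α x0 ((0 : Lat m), j))).toReal =
      r * (volume (tile σ α x0 ((0 : Lat m), i))).toReal)

/-- Parents and children of faces. -/
def ParStmt : Prop :=
  ∀ (m : ℕ) (σ : Fin (m + 1) → List (Fin (m + 1))) (M : Matrix (Fin (m + 1)) (Fin (m + 1)) ℤ)
    (r : ℝ) (α l : Fin (m + 1) → ℝ) (a0 : Fin (m + 1)) (x0 : ℤ → Fin (m + 1)),
    Dat σ M r α l a0 x0 →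
    (∀ (n : ℕ) (t : ℝ) (G : Face m), Alive l t G →
      ∃! F : Face m, Par σ M n G F ∧ Alive l (r ^ n * t) F) ∧
    (∀ (n : ℕ) (t : ℝ) (G F : Face m), Par σ M n G F → Alive l (r ^ n * t) F → Alive l t G) ∧
    (∀ (n : ℕ) (F : Face m), {G : Face m | Par σ M n G F}.Finite) ∧
    (∀ (n : ℕ) (v : Lat m) (G F : Face m), Par σ M n G F →
      Par σ M n (tr v G) (tr ((M ^ n).mulVec v) F))

/-- The graph directed iterated function system, up to null sets. -/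
def GifsStmt : Prop :=
  ∀ (m : ℕ) (σ : Fin (m + 1) → List (Fin (m + 1))) (M : Matrix (Fin (m + 1)) (Fin (m + 1)) ℤ)
    (r : ℝ) (α l : Fin (m + 1) → ℝ) (a0 : Fin (m + 1)) (x0 : ℤ → Fin (m + 1)),
    Dat σ M r α l a0 x0 →
    (∀ (n : ℕ) (F : Face m), ∀ᵐ y ∂(volume : Measure (E m)),
      (y ∈ tile σ α x0 F ↔ ∃ G, Par σ M n G F ∧ y ∈ Bn M α n '' tile σ α x0 G)) ∧
    (∀ (n : ℕ) (G G' F : Face m), Par σ M n G F → Par σ M n G' F → G ≠ G' →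
      (volume : Measure (E m)) (tile σ α x0 G ∩ tile σ α x0 G') = 0)

/-- The flip relation. -/
def FlipStmt : Prop :=
  ∀ (m : ℕ) (σ : Fin (m + 1) → List (Fin (m + 1))) (M : Matrix (Fin (m + 1)) (Fin (m + 1)) ℤ)
    (r : ℝ) (α l : Fin (m + 1) → ℝ) (a0 : Fin (m + 1)) (x0 : ℤ → Fin (m + 1)),
    Dat σ M r α l a0 x0 →
    (∀ w : Lat m, ∀ᵐ y ∂(volume : Measure (E m)),
      ∑ i, ind (tile σ α x0 (w - ee i, i)) y = ∑ j, ind (tile σ α x0 (w, j)) y) ∧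
    Rel σ α x0 uv

/-- Constant multiplicity. -/
def MultStmt : Prop :=
  ∀ (m : ℕ) (σ : Fin (m + 1) → List (Fin (m + 1))) (M : Matrix (Fin (m + 1)) (Fin (m + 1)) ℤ)
    (r : ℝ) (α l : Fin (m + 1) → ℝ) (a0 : Fin (m + 1)) (x0 : ℤ → Fin (m + 1)),
    Dat σ M r α l a0 x0 → ∃ k : ℕ, 1 ≤ k ∧ Mult σ α l x0 k

/-- Moments. -/
def MomStmt : Prop :=
  ∀ (m : ℕ) (σ : Fin (m + 1) → List (Fin (m + 1))) (M : Matrix (Fin (m + 1)) (Fin (m + 1)) ℤ)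
    (r : ℝ) (α l : Fin (m + 1) → ℝ) (a0 : Fin (m + 1)) (x0 : ℤ → Fin (m + 1)),
    Dat σ M r α l a0 x0 →
    ∀ β : ℂ, Polynomial.aeval β M.charpoly = 0 → β ≠ (r : ℂ) →
    ∀ W : Fin (m + 1) → ℂ, LeftEig M β W →
    (∀ a, PowerSeries.constantCoeff (Gam W (tile σ α x0 ((0 : Lat m), a))) =
      (((volume (tile σ α x0 ((0 : Lat m), a))).toReal : ℝ) : ℂ)) ∧
    ∀ x : Fin (m + 1) → R m, Rel σ α x0 x →
      ∑ a, evS W (x a) * Gam W (tile σ α x0 ((0 : Lat m), a)) = 0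

/-- The Galois argument. -/
def GaloisStmt : Prop :=
  ∀ (m : ℕ) (M : Matrix (Fin (m + 1)) (Fin (m + 1)) ℤ) (r : ℝ), PisotMat M r →
    ∀ V : Fin (m + 1) → ℝ, (∀ a, 0 < V a) → (∀ i, ∑ j, (M i j : ℝ) * V j = r * V i) →
    ∀ x y : Fin (m + 1) → R m,
    (∀ β : ℂ, Polynomial.aeval β M.charpoly = 0 → β ≠ (r : ℂ) →
      ∀ W : Fin (m + 1) → ℂ, LeftEig M β W →
      ∃ G : Fin (m + 1) → PowerSeries ℂ,
        (∀ a, PowerSeries.constantCoeff (G a) = ((V a : ℝ) : ℂ)) ∧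
        ∑ a, evS W (x a) * G a = 0 ∧ ∑ a, evS W (y a) * G a = 0) →
    ∀ a b, x a * y b = x b * y a

/-- All translation relations are parallel to the flip relation. -/
def RelStmt : Prop :=
  ∀ (m : ℕ) (σ : Fin (m + 1) → List (Fin (m + 1))) (M : Matrix (Fin (m + 1)) (Fin (m + 1)) ℤ)
    (r : ℝ) (α l : Fin (m + 1) → ℝ) (a0 : Fin (m + 1)) (x0 : ℤ → Fin (m + 1)),
    Dat σ M r α l a0 x0 →
    ∀ x : Fin (m + 1) → R m, Rel σ α x0 x → ∀ a b, x a * uv b = x b * uv a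

/-- Linear algebra over the fraction field. -/
def LinAlgStmt : Prop :=
  ∀ (A : Type) [CommRing A] [IsDomain A] (T P K : Type) [Fintype T] [Fintype P] [Fintype K]
    (ρ : P → T → A) (g : P → K → A),
    (∀ y : P → A, (∀ τ, ∑ p, y p * ρ p τ = 0) → ∀ κ, ∑ p, y p * g p κ = 0) →
    ∃ f : A, f ≠ 0 ∧ ∃ L : T → K → A, ∀ p κ, f * g p κ = ∑ τ, ρ p τ * L τ κ

/-- The Novikov trick; also `R m` is a domain. -/
def NovStmt : Prop :=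
  ∀ (m : ℕ) (l : Fin (m + 1) → ℝ), Function.Injective (ht l : Lat m → ℝ) →
    ∀ f : R m, f ≠ 0 → ∀ H : ℝ, ∃ g q : R m, g * f = 1 - q ∧ ∀ v ∈ q.coeff.support, ht l v < -H

/-- Facts on cliques. -/
def CliqueStmt : Prop :=
  ∀ (m : ℕ) (σ : Fin (m + 1) → List (Fin (m + 1))) (M : Matrix (Fin (m + 1)) (Fin (m + 1)) ℤ)
    (r : ℝ) (α l : Fin (m + 1) → ℝ) (a0 : Fin (m + 1)) (x0 : ℤ → Fin (m + 1)),
    Dat σ M r α l a0 x0 → ∀ k : ℕ, 1 ≤ k → Mult σ α l x0 k →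
    (∃ K : ℤ, ∀ C, Clique σ α l x0 k C → ∀ F ∈ C, ∀ F' ∈ C, ∀ i, |F.1 i - F'.1 i| ≤ K) ∧
    (∀ t : ℝ, ∀ᵐ y ∂(volume : Measure (E m)), ∃ C : Finset (Face m), Clique σ α l x0 k C ∧
      ∀ F, F ∈ C ↔ (Alive l t F ∧ y ∈ tile σ α x0 F)) ∧
    (∀ (v : Lat m) (C : Finset (Face m)), Clique σ α l x0 k C → Clique σ α l x0 k (trS v C)) ∧
    (∀ (t : ℝ) (F : Face m),
      {C : Finset (Face m) | Clique σ α l x0 k C ∧ AliveS l t C ∧ F ∈ C}.Finite)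

/-- The algebraic identity (`Cl` stands for the set of cliques). -/
def HidProp {m : ℕ} (l : Fin (m + 1) → ℝ) (Cl : Finset (Face m) → Prop) : Prop :=
  ∀ H : ℝ, ∃ (q : R m) (ρ : ℤ) (L : Finset (Face m) → Fin (m + 1) → Fin (m + 1) → R m),
    (∀ v ∈ q.coeff.support, ht l v < -H) ∧
    (∀ C, Cl C → ∀ a b, ∀ v ∈ (L C a b).coeff.support, ∀ F ∈ C, ∀ i, |v i - F.1 i| ≤ ρ) ∧
    (∀ (t : ℝ) (F : Face m), Alive l t F → ∀ S : Finset (Finset (Face m)),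
      (∀ C, C ∈ S ↔ Cl C ∧ AliveS l t C ∧ F ∈ C) →
      ∀ a b, mon F.1 * wdg F.2 a b = q * (mon F.1 * wdg F.2 a b) + ∑ C ∈ S, L C a b)

/-- The patch property: arbitrarily large patches with a labelling which is injective on
cliques. -/
def PatchProp {m : ℕ} (l : Fin (m + 1) → ℝ) (Cl : Finset (Face m) → Prop) (k : ℕ) : Prop :=
  ∀ N : ℤ, ∃ (t : ℝ) (C0 : Finset (Face m)) (lab : Face m → Fin k), Cl C0 ∧ AliveS l t C0 ∧
    ∀ C, Cl C → AliveS l t C → (∃ F ∈ C, ∃ F0 ∈ C0, ∀ i, |F.1 i - F0.1 i| ≤ N) →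
      Set.InjOn lab (C : Set (Face m))

/-- The algebraic identity for cliques. -/
def HidStmt : Prop :=
  ∀ (m : ℕ) (σ : Fin (m + 1) → List (Fin (m + 1))) (M : Matrix (Fin (m + 1)) (Fin (m + 1)) ℤ)
    (r : ℝ) (α l : Fin (m + 1) → ℝ) (a0 : Fin (m + 1)) (x0 : ℤ → Fin (m + 1)),
    Dat σ M r α l a0 x0 → ∀ k : ℕ, 1 ≤ k → Mult σ α l x0 k →
    HidProp l (Clique σ α l x0 k)

/-- Existence of patches. -/
def PatchStmt : Prop :=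
  ∀ (m : ℕ) (σ : Fin (m + 1) → List (Fin (m + 1))) (M : Matrix (Fin (m + 1)) (Fin (m + 1)) ℤ)
    (r : ℝ) (α l : Fin (m + 1) → ℝ) (a0 : Fin (m + 1)) (x0 : ℤ → Fin (m + 1)),
    Dat σ M r α l a0 x0 → ∀ k : ℕ, 1 ≤ k → Mult σ α l x0 k →
    PatchProp l (Clique σ α l x0 k) k

/-- The contradiction. -/
def ContraStmt : Prop :=
  ∀ (m : ℕ) (l : Fin (m + 1) → ℝ), (∀ i, 0 < l i) →
    ∀ (k : ℕ), 2 ≤ k → ∀ (Cl : Finset (Face m) → Prop) (K : ℤ),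
    (∀ C, Cl C → C.card = k) →
    (∀ C, Cl C → ∀ F ∈ C, ∀ F' ∈ C, ∀ i, |F.1 i - F'.1 i| ≤ K) →
    (∀ (t : ℝ) (F : Face m), {C : Finset (Face m) | Cl C ∧ AliveS l t C ∧ F ∈ C}.Finite) →
    HidProp l Cl → PatchProp l Cl k → False

/-- Multiplicity one gives the conclusion. -/
def FinStmt : Prop :=
  ∀ (m : ℕ) (σ : Fin (m + 1) → List (Fin (m + 1))) (M : Matrix (Fin (m + 1)) (Fin (m + 1)) ℤ)
    (r : ℝ) (α l : Fin (m + 1) → ℝ) (a0 : Fin (m + 1)) (x0 : ℤ → Fin (m + 1)),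
    Dat σ M r α l a0 x0 → Mult σ α l x0 1 → Concl {x | InX σ x}

/-- The theorem for substitutions with a fixed letter. -/
def MainStmt : Prop :=
  ∀ (m : ℕ) (σ : Fin (m + 1) → List (Fin (m + 1))) (M : Matrix (Fin (m + 1)) (Fin (m + 1)) ℤ)
    (r : ℝ) (α l : Fin (m + 1) → ℝ) (a0 : Fin (m + 1)) (x0 : ℤ → Fin (m + 1)),
    Dat σ M r α l a0 x0 → Concl {x | InX σ x}

/-- The Pisot substitution conjecture. -/
def PisotConj : Prop :=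
  ∀ (d : ℕ), 2 ≤ d →
    ∀ σ : Fin d → List (Fin d), (∀ a, σ a ≠ []) →
    ∀ M : Matrix (Fin d) (Fin d) ℤ, (∀ i j, M i j = ((σ j).count i : ℤ)) →
    (∃ r : ℝ, 1 < r ∧ Polynomial.aeval (r : ℂ) M.charpoly = 0 ∧
      ∀ μ : ℂ, Polynomial.aeval μ M.charpoly = 0 → μ ≠ (r : ℂ) → 0 < ‖μ‖ ∧ ‖μ‖ < 1) →
    Irreducible (M.charpoly.map (Int.castRingHom ℚ)) →
    (M.det = 1 ∨ M.det = -1) →
    ∀ X : Set (ℤ → Fin d),
      (∀ x : ℤ → Fin d, x ∈ X ↔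
        ∀ (i : ℤ) (k : ℕ), ∃ (n : ℕ) (a : Fin d), 1 ≤ n ∧
          List.IsInfix (List.ofFn (fun j : Fin k => x (i + ((j : ℕ) : ℤ))))
            ((fun w : List (Fin d) => w.flatMap σ)^[n] [a])) →
    Concl X

/-- Reduction to a fixed letter. -/
def RedStmt : Prop := MainStmt → PisotConj

end Pool.Agent.PSC
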