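import Pool.Agent.Helper95_PSC.Stmts

set_option autoImplicit false

/-!
Assembly of the modules.
-/

namespace Pool.Agent.PSC

open Pool.Agent.Helper40_Pisot MeasureTheory

/-- Step A assembled. -/
theorem rel_of (hT : TileStmt) (hF : FlipStmt) (hMo : MomStmt) (hG : GaloisStmt) : RelStmt := by
  intro m σ M r α l a0 x0 D x hx a b
  obtain ⟨hcomp, -, -, hpos, heig⟩ := hT m σ M r α l a0 x0 D
  have hfin : ∀ a, volume (tile σ α x0 ((0 : Lat m), a)) ≠ ⊤ := fun a =>
    (hcomp ((0 : Lat m), a)).measure_lt_top.ne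
  refine hG m M r D.pis (fun a => (volume (tile σ α x0 ((0 : Lat m), a))).toReal) ?_ heig x uv ?_ a b
  · intro a
    exact ENNReal.toReal_pos (hpos _).ne' (hfin a)
  · intro β hβ hβr W hW
    obtain ⟨h1, h2⟩ := hMo m σ M r α l a0 x0 D β hβ hβr W hW
    exact ⟨fun a => Gam W (tile σ α x0 ((0 : Lat m), a)), h1, h2 x hx,
      h2 uv (hF m σ M r α l a0 x0 D).2⟩

/-- The main statement from the modules. -/
theorem main_of (hK : MultStmt) (hC : CliqueStmt) (hH : HidStmt) (hP : PatchStmt)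
    (hD : ContraStmt) (hFi : FinStmt) : MainStmt := by
  intro m σ M r α l a0 x0 D
  obtain ⟨k, hk1, hk⟩ := hK m σ M r α l a0 x0 D
  have hk2 : k = 1 := by
    by_contra hne
    have h2 : 2 ≤ k := by omega
    obtain ⟨⟨K, hKb⟩, -, -, hfin⟩ := hC m σ M r α l a0 x0 D k hk1 hk
    exact hD m l D.pf.l_pos k h2 (Clique σ α l x0 k) K (fun C hC => hC.1) hKb hfin
      (hH m σ M r α l a0 x0 D k hk1 hk) (hP m σ M r α l a0 x0 D k hk1 hk)
  subst hk2
  exact hFi m σ M r α l a0 x0 D hk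

/-- Everything. -/
theorem pisot_of (hK : MultStmt) (hC : CliqueStmt) (hH : HidStmt) (hP : PatchStmt)
    (hD : ContraStmt) (hFi : FinStmt) (hR : RedStmt) : PisotConj :=
  hR (main_of hK hC hH hP hD hFi)

end Pool.Agent.PSC
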