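import Pool.Agent.Helper95_PSC.Stmts

set_option autoImplicit false

/-!
Further statements: multiplicity one, existence of the data for a power.
-/

namespace Pool.Agent.PSC

open Pool.Agent.Helper40_Pisot MeasureTheory

/-- Multiplicity one. -/
def OneStmt : Prop :=
  ∀ (m : ℕ) (σ : Fin (m + 1) → List (Fin (m + 1))) (M : Matrix (Fin (m + 1)) (Fin (m + 1)) ℤ)
    (r : ℝ) (α l : Fin (m + 1) → ℝ) (a0 : Fin (m + 1)) (x0 : ℤ → Fin (m + 1)),
    Dat σ M r α l a0 x0 → Mult σ α l x0 1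

/-- Some power of a Pisot substitution has a fixed letter and all the data exist. -/
def DatStmt : Prop :=
  ∀ (m : ℕ), 1 ≤ m → ∀ (σ : Fin (m + 1) → List (Fin (m + 1)))
    (M : Matrix (Fin (m + 1)) (Fin (m + 1)) ℤ) (r : ℝ),
    (∀ a, σ a ≠ []) → Inc σ M → PisotMat M r →
    ∃ (N : ℕ) (α l : Fin (m + 1) → ℝ) (a0 : Fin (m + 1)) (x0 : ℤ → Fin (m + 1)), 1 ≤ N ∧
      Dat (fun a => it σ N [a]) (M ^ N) (r ^ N) α l a0 x0

end Pool.Agent.PSC
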