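import Pool.Agent.Helper95_PSC.Asm
import Pool.Agent.Helper95_PSC.Stmts2

set_option autoImplicit false

/-!
Assembly: multiplicity one.
-/

namespace Pool.Agent.PSC

open Pool.Agent.Helper40_Pisot MeasureTheory

theorem one_of (hK : MultStmt) (hC : CliqueStmt) (hH : HidStmt) (hP : PatchStmt)
    (hD : ContraStmt) : OneStmt := by
  intro m σ M r α l a0 x0 D
  obtain ⟨k, hk1, hk⟩ := hK m σ M r α l a0 x0 D
  have hk2 : k = 1 := by
    by_contra hne
    have h2 : 2 ≤ k := by omega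
    obtain ⟨⟨K, hKb⟩, -, -, hfin⟩ := hC m σ M r α l a0 x0 D k hk1 hk
    exact hD m l D.pf.l_pos k h2 (Clique σ α l x0 k) K (fun C hC => hC.1) hKb hfin
      (hH m σ M r α l a0 x0 D k hk1 hk) (hP m σ M r α l a0 x0 D k hk1 hk)
  subst hk2
  exact hk

theorem main_of_one (h1 : OneStmt) (hFi : FinStmt) : MainStmt := fun m σ M r α l a0 x0 D =>
  hFi m σ M r α l a0 x0 D (h1 m σ M r α l a0 x0 D)

end Pool.Agent.PSC
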