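import Pool.Agent.Helper40_Pisot.Final
import Pool.Agent.Helper40_Pisot.PowIrr

set_option autoImplicit false

/-!
Definitions for the proof of the Pisot substitution conjecture (namespace `Pool.Agent.PSC`).
The lattice is `Z ^ (m + 1)`, the contracting space is `Fin m → ℝ`, a face is a lattice point with a
letter; the face `(v, a)` stands for the edge from `v` to `v + e_a` of a lattice path.
-/

namespace Pool.Agent.PSC

open Pool.Agent.Helper40_Pisot MeasureTheory

/-- The lattice. -/
abbrev Lat (m : ℕ) : Type := Fin (m + 1) → ℤ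

/-- Faces: the edge from `v` to `v + e_a`. -/
abbrev Face (m : ℕ) : Type := Lat m × Fin (m + 1)

/-- The contracting space. -/
abbrev E (m : ℕ) : Type := Fin m → ℝ

variable {m : ℕ}

/-- Unit vectors. -/
def ee (a : Fin (m + 1)) : Lat m := Pi.single a 1

/-- The abelianization of a word. -/
def cnt (w : List (Fin (m + 1))) : Lat m := fun i => (w.count i : ℤ)

/-- The height. -/
noncomputable def ht (l : Fin (m + 1) → ℝ) (v : Lat m) : ℝ := ∑ i, l i * (v i : ℝ)

/-- The projection of a lattice point to the contracting space. -/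
noncomputable def pr (α : Fin (m + 1) → ℝ) (v : Lat m) : E m :=
  fun i => (v i.castSucc : ℝ) - (∑ j, (v j : ℝ)) * α i.castSucc

/-- The face `F` is alive at time `t`. -/
def Alive (l : Fin (m + 1) → ℝ) (t : ℝ) (F : Face m) : Prop :=
  ht l F.1 ≤ t ∧ t < ht l F.1 + l F.2

/-- Translation of a face. -/
def tr (v : Lat m) (F : Face m) : Face m := (v + F.1, F.2)

/-- Translation of a finite set of faces. -/
def trS (v : Lat m) (C : Finset (Face m)) : Finset (Face m) := C.image (tr v)

/-- All the data. -/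
structure Dat (σ : Fin (m + 1) → List (Fin (m + 1))) (M : Matrix (Fin (m + 1)) (Fin (m + 1)) ℤ)
    (r : ℝ) (α l : Fin (m + 1) → ℝ) (a0 : Fin (m + 1)) (x0 : ℤ → Fin (m + 1)) : Prop where
  hm : 1 ≤ m
  ne : ∀ a, σ a ≠ []
  inc : Inc σ M
  pis : PisotMat M r
  pf : PFData M r α l
  fix : Fixed σ a0 x0

/-- The tile of a face: the positions of the lattice paths through the face (`x0` is the base
point used for centering). -/
noncomputable def tile (σ : Fin (m + 1) → List (Fin (m + 1))) (α : Fin (m + 1) → ℝ)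
    (x0 : ℤ → Fin (m + 1)) (F : Face m) : Set (E m) :=
  (fun p => pr α F.1 + ph α x0 - p) '' Rset σ α F.2

/-- `Par σ M n G F`: the face `F` belongs to the path `σ ^ n (G)`. -/
def Par (σ : Fin (m + 1) → List (Fin (m + 1))) (M : Matrix (Fin (m + 1)) (Fin (m + 1)) ℤ)
    (n : ℕ) (G F : Face m) : Prop :=
  ∃ t : ℕ, (it σ n [G.2])[t]? = some F.2 ∧
    F.1 = (M ^ n).mulVec G.1 + cnt ((it σ n [G.2]).take t)

/-- The contraction `M ^ n` on the contracting space. -/
noncomputable def Bn (M : Matrix (Fin (m + 1)) (Fin (m + 1)) ℤ) (α : Fin (m + 1) → ℝ) (n : ℕ) :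
    E m →ₗ[ℝ] E m := Matrix.toLin' (Bred M α n)

/-- The common part of the tiles of a finite set of faces. -/
def tI (σ : Fin (m + 1) → List (Fin (m + 1))) (α : Fin (m + 1) → ℝ)
    (x0 : ℤ → Fin (m + 1)) (C : Finset (Face m)) : Set (E m) :=
  ⋂ F ∈ C, tile σ α x0 F

/-- The multiplicity property: almost every point is in exactly `k` tiles of faces alive at `t`. -/
def Mult (σ : Fin (m + 1) → List (Fin (m + 1))) (α l : Fin (m + 1) → ℝ)
    (x0 : ℤ → Fin (m + 1)) (k : ℕ) : Prop :=
  ∀ t : ℝ, ∀ᵐ y ∂(volume : Measure (E m)),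
    Set.ncard {F : Face m | Alive l t F ∧ y ∈ tile σ α x0 F} = k

/-- All faces of `C` are alive at time `t`. -/
def AliveS (l : Fin (m + 1) → ℝ) (t : ℝ) (C : Finset (Face m)) : Prop := ∀ F ∈ C, Alive l t F

/-- Cliques: `k` faces, simultaneously alive, whose tiles have a common part of positive volume. -/
def Clique (σ : Fin (m + 1) → List (Fin (m + 1))) (α l : Fin (m + 1) → ℝ)
    (x0 : ℤ → Fin (m + 1)) (k : ℕ) (C : Finset (Face m)) : Prop :=
  C.card = k ∧ (∃ t, AliveS l t C) ∧ 0 < (volume : Measure (E m)) (tI σ α x0 C)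

/-- The coefficient ring `ℚ[Z ^ (m + 1)]`. -/
abbrev R (m : ℕ) : Type := AddMonoidAlgebra ℚ (Lat m)

/-- The monomial of a lattice point. -/
noncomputable def mon (v : Lat m) : R m := AddMonoidAlgebra.single v 1

/-- The flip vector. -/
noncomputable def uv (a : Fin (m + 1)) : R m := mon (-ee a) - 1

/-- The wedge of the basis vector `e_c` with the flip vector. -/
noncomputable def wdg (c a b : Fin (m + 1)) : R m :=
  (if c = a then uv b else 0) - (if c = b then uv a else 0)

/-- Linear form on the lattice. -/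
def pair {K : Type*} [Field K] (W : Fin (m + 1) → K) (v : Lat m) : K := ∑ i, W i * (v i : K)

/-- The exponential series `exp (c s)`. -/
noncomputable def eS {K : Type*} [Field K] [Algebra ℚ K] (c : K) : PowerSeries K :=
  PowerSeries.rescale c (PowerSeries.exp K)

/-- The evaluation `X ^ v ↦ exp (⟨W, v⟩ s)`. -/
noncomputable def evS {K : Type*} [Field K] [Algebra ℚ K] (W : Fin (m + 1) → K) (x : R m) :
    PowerSeries K :=
  x.coeff.sum (fun v c => PowerSeries.C (algebraMap ℚ K c) * eS (pair W v))

/-- Left eigenvectors. -/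
def LeftEig {K : Type*} [Field K] (M : Matrix (Fin (m + 1)) (Fin (m + 1)) ℤ) (β : K)
    (W : Fin (m + 1) → K) : Prop := ∀ j, ∑ i, W i * (M i j : K) = β * W j

/-- The linear form on the contracting space given by a covector which kills `α`. -/
noncomputable def wE (W : Fin (m + 1) → ℂ) (y : E m) : ℂ :=
  ∑ i : Fin m, (W i.castSucc - W (Fin.last m)) * (y i : ℂ)

/-- The moment series of a set. -/
noncomputable def Gam (W : Fin (m + 1) → ℂ) (S : Set (E m)) : PowerSeries ℂ :=
  PowerSeries.mk (fun n => ∫ y in S, (wE W y) ^ n / (n.factorial : ℂ))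

/-- The indicator function of a set, with real values. -/
noncomputable def ind (S : Set (E m)) : E m → ℝ := S.indicator (fun _ => (1 : ℝ))

/-- The action of the ring `R m` on functions by translations. -/
noncomputable def act (α : Fin (m + 1) → ℝ) (x : R m) (g : E m → ℝ) (y : E m) : ℝ :=
  x.coeff.sum (fun v c => (c : ℝ) * g (y - pr α v))

/-- Translation relations between the subtiles. -/
def Rel (σ : Fin (m + 1) → List (Fin (m + 1))) (α : Fin (m + 1) → ℝ)
    (x0 : ℤ → Fin (m + 1)) (x : Fin (m + 1) → R m) : Prop :=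
  ∀ᵐ y ∂(volume : Measure (E m)), ∑ a, act α (x a) (ind (tile σ α x0 (0, a))) y = 0

/-- The conclusion of Q1 for a subshift. -/
def Concl {d : ℕ} (X : Set (ℤ → Fin d)) : Prop :=
  ∃ (m : ℕ) (γ : Fin m → UnitAddCircle),
    (∀ y : Fin m → UnitAddCircle, Dense (Set.range (fun n : ℤ => y + n • γ))) ∧
    ∃ π : (ℤ → Fin d) → (Fin m → UnitAddCircle),
      ContinuousOn π X ∧ π '' X = Set.univ ∧
      (∀ x ∈ X, π (fun n => x (n + 1)) = π x + γ) ∧
      ∃ N : Set (Fin m → UnitAddCircle), MeasureTheory.volume N = 0 ∧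
        ∀ y ∉ N, ∃! x, x ∈ X ∧ π x = y

end Pool.Agent.PSC
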