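import Pool.Agent.Helper95_PSC.Asm2
import Pool.Agent.Helper2_PSC.Gal
import Pool.Agent.Helper2_PSC.Hid
import Pool.Agent.Helper11_PSC.Contra
import Pool.Agent.Helper21_PSC.Gifs
import Pool.Agent.Helper26_PSC.LatA
import Pool.Agent.Helper27_PSC.Par
import Pool.Agent.Helper40_PSC.Red
import Pool.Agent.Helper40_PSC.Tile
import Pool.Agent.Helper54_PSC.Mult
import Pool.Agent.Helper58_PSC.Mom
import Pool.Agent.Helper60_PSC.Nov
import Pool.Agent.Helper64_PSC.Flip
import Pool.Agent.Helper76_PSC.Fin
import Pool.Agent.Helper84_PSC.LatB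
import Pool.Agent.Helper94_PSC.PatchStmt
import Pool.Agent.Helper96_PSC.LinAlg
import Pool.Agent.Helper97_PSC.Clq

set_option autoImplicit false

/-!
The Pisot substitution conjecture (unimodular irreducible case): final assembly.
-/

namespace Pool.Agent.PSC

theorem latA : LatAStmt := H26.latA
theorem latB : LatBStmt := H84.latB
theorem tile_ok : TileStmt := Helper40_PSC.tileStmt
theorem par_ok : ParStmt := H27.par
theorem galois_ok : GaloisStmt := H2.galois
theorem mom_ok : MomStmt := H58.mom tile_ok
theorem linAlg_ok : LinAlgStmt := H96.linAlg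
theorem nov_ok : NovStmt := H60.nov
theorem contra_ok : ContraStmt := H11.contra
theorem clique_ok : CliqueStmt := H97.clique latA tile_ok
theorem red_ok : RedStmt := Helper40_PSC.redStmt

theorem fin_ok : FinStmt := H76.fin
theorem gifs_ok : GifsStmt := H21.gifs
theorem patch_ok : PatchStmt := H94.patchStmt latB tile_ok par_ok gifs_ok clique_ok
theorem flip_ok : FlipStmt := H64.flip tile_ok latB gifs_ok par_ok
theorem mult_ok : MultStmt := Helper54_PSC.mult latA tile_ok flip_ok
theorem rel_ok : RelStmt := rel_of tile_ok flip_ok mom_ok galois_ok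

theorem hid_ok : HidStmt := H2.hid rel_ok linAlg_ok nov_ok clique_ok tile_ok latA

/-- The Pisot substitution conjecture. -/
theorem pisot_ok : PisotConj :=
  pisot_of mult_ok clique_ok hid_ok patch_ok contra_ok fin_ok red_ok

end Pool.Agent.PSC
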